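import Pool.Agent.Lib_helper46.Chrom.NSDefs

/-!
# Lemma R (note 1214, section 5.1)

If every tight face which misses `a` contains all neighbours of `a` (and all tight faces are
crossed, all components of clique cuts have couplings), then the graph is 3-connected.
-/

open Finset

namespace Pool.Agent.Chrom

/-- the vertex `a` has a neighbour different from `x` -/
lemma lemmaR_nbr {V : Type} [Fintype V] [DecidableEq V] {A : Finset V → Prop} (h : NC A)
    (h4 : 4 ≤ Fintype.card V) {a x : V} (hax : a ≠ x) :
    ∃ q, q ≠ x ∧ (gr A).Adj a q := by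
  obtain ⟨v, hv⟩ : ∃ v, v ∉ ({a, x} : Finset V) := by
    by_contra hno
    push Not at hno
    have h1 : (univ : Finset V) ⊆ {a, x} := fun v _ => hno v
    have h2 := card_le_card h1
    have h3 : ({a, x} : Finset V).card ≤ 2 := card_le_two
    rw [card_univ] at h2
    omega
  rw [mem_insert, mem_singleton, not_or] at hv
  obtain ⟨p, hp, q, -, hq2, hpq⟩ := exists_adj_out h (E := {a}) (u := a) (x := x) (v := v)
    (mem_singleton_self a) (by rw [mem_singleton]; exact hax.symm)
    (by rw [mem_singleton]; exact hv.1) hv.2
  rw [mem_singleton] at hp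
  subst hp
  exact ⟨q, hq2, hpq⟩

/-- **Lemma R** -/
theorem lemmaR (hCoup : StmtCoup) : StmtLemmaR := by
  intro V _ _ A a h h4 hcr hcp ha S hS
  -- a point outside `S`
  have hout : ∃ v, v ∉ S := by
    by_contra hno
    push Not at hno
    have h2 := card_le_card (fun v _ => hno v : (univ : Finset V) ⊆ S)
    rw [card_univ] at h2
    omega
  have hpos : 0 < kk (gr A) S := kk_pos hout
  by_contra hne
  have h2k : 2 ≤ kk (gr A) S := by omega
  have hc0 : S.card ≠ 0 := by
    intro h0
    rw [card_eq_zero] at h0
    subst h0
    obtain ⟨v, -⟩ := hout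
    have : Nonempty V := ⟨v⟩
    exact hne (kk_empty_eq_one ⟨h.conn⟩)
  have hc1 : S.card ≠ 1 := by
    intro h1
    obtain ⟨x, rfl⟩ := card_eq_one.1 h1
    have := h.face {x} (h.sing x) (singleton_nonempty x)
    unfold cc at this
    rw [card_singleton] at this
    omega
  obtain ⟨p, q, hpq, rfl⟩ := card_eq_two.1 (show S.card = 2 by omega)
  -- the neighbours of `a` cannot lie in one point
  have hfin : ∀ x, a ≠ x → ¬ ∀ v, (gr A).Adj a v → v = x := by
    intro x hax hall
    obtain ⟨v, hv1, hv2⟩ := lemmaR_nbr h h4 hax
    exact hv1 (hall v hv2)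
  -- another component
  have hother : ∀ E ∈ comps (gr A) {p, q}, ∃ E' ∈ comps (gr A) {p, q}, E' ≠ E ∧
      ∃ v ∈ E', v ∉ E ∧ v ≠ p ∧ v ≠ q := by
    intro E hE
    obtain ⟨E', hE', hne'⟩ := Finset.exists_mem_ne (s := comps (gr A) {p, q}) h2k E
    obtain ⟨v, hv⟩ := comps_nonempty hE'
    have h5 : v ∉ ({p, q} : Finset V) := Finset.disjoint_left.1 (comps_disjoint_S hE') hv
    rw [mem_insert, mem_singleton, not_or] at h5
    exact ⟨E', hE', hne', v, hv, fun hvE => hne' (comps_eq_of_mem hE' hE hv hvE), h5⟩
  by_cases hadj : (gr A).Adj p q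
  · -- clique cut: symmetric statement in `p`, `q`
    have key : ∀ x x', (gr A).Adj x x' → ({x, x'} : Finset V) = {p, q} → a ≠ x → False := by
      intro x x' hxx' heq hax
      -- choose the component
      obtain ⟨E, hE, haE⟩ : ∃ E ∈ comps (gr A) {x, x'}, a ∈ E ∨ a = x' := by
        by_cases hax' : a = x'
        · obtain ⟨E, hE⟩ := card_pos.1 hpos
          exact ⟨E, by rw [heq]; exact hE, Or.inr hax'⟩
        · have : a ∉ ({x, x'} : Finset V) := by
            rw [mem_insert, mem_singleton, not_or]
            exact ⟨hax, hax'⟩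
          obtain ⟨E, hE, haE⟩ := exists_comps (G := gr A) this
          exact ⟨E, hE, Or.inl haE⟩
      have hv : ∃ v, v ∉ E ∧ v ≠ x ∧ v ≠ x' := by
        obtain ⟨E', hE', -, v, -, hv1, hv2, hv3⟩ := hother E (by rw [← heq]; exact hE)
        have hv4 : v ∉ ({x, x'} : Finset V) := by
          rw [heq, mem_insert, mem_singleton, not_or]
          exact ⟨hv2, hv3⟩
        rw [mem_insert, mem_singleton, not_or] at hv4
        exact ⟨v, hv1, hv4⟩
      obtain ⟨f, -, hxf, hxf', -, -, hT1, hT2, -, -⟩ := hCoup V A x x' E h hcr hcp hxx' hE hv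
      refine hfin x hax fun v hav => ?_
      rcases haE with haE | rfl
      · -- `a ∈ E`
        have h5 := ha _ hT2 (fun h6 => (mem_sdiff.1 h6).2 haE) v hav
        rw [mem_sdiff] at h5
        by_contra hvx
        have h6 : v ∉ ({x, x'} : Finset V) := by
          rw [mem_insert, mem_singleton, not_or]
          refine ⟨hvx, ?_⟩
          rintro rfl
          exact hxf' h5.1
        exact h5.2 (comps_closed hE haE hav h6)
      · -- `a = x'`
        have h5 := ha _ hT1 (by
          rw [mem_insert, not_or]
          exact ⟨hax, fun h6 => hxf' (mem_inter.1 h6).1⟩) v hav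
        have h6 := ha _ hT2 (fun h6 => hxf' (mem_sdiff.1 h6).1) v hav
        rw [mem_insert] at h5
        rcases h5 with h5 | h5
        · exact h5
        · exact absurd (mem_inter.1 h5).2 (mem_sdiff.1 h6).2
    by_cases hap : a = p
    · exact key q p hadj.symm (Finset.pair_comm q p) (by rw [hap]; exact hpq)
    · exact key p q hadj rfl hap
  · -- nonadjacent cut
    have hface : A {p, q} := by
      by_contra hno
      exact hadj ⟨hpq, hno⟩
    have hcc := h.face _ hface ⟨p, by simp⟩
    have hkk : kk (gr A) {p, q} = 2 := by
      unfold cc at hcc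
      rw [card_pair hpq] at hcc
      omega
    have htight : Tight A {p, q} := by
      refine ⟨hface, by rw [card_pair hpq], ?_⟩
      unfold cc
      rw [card_pair hpq, hkk]
      norm_num
    obtain ⟨g, hg, hc⟩ := (hcr _ htight).cross h htight
    -- a nonsingle part
    obtain ⟨C, hC, hC2⟩ : ∃ C ∈ comps (gr A) {p, q}, 2 ≤ (g ∩ C).card := by
      by_contra hno
      push Not at hno
      have h5 := card_eq_sum_inter (G := gr A) hc.disj
      have h6 : ∑ C ∈ comps (gr A) {p, q}, (g ∩ C).card ≤ ∑ C ∈ comps (gr A) {p, q}, 1 :=
        sum_le_sum fun C hC => by have := hno C hC; omega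
      rw [sum_const, smul_eq_mul, mul_one] at h6
      have h7 : (comps (gr A) {p, q}).card = 2 := hkk
      have h8 := hg.2
      omega
    have hT := hc.part_tight h hC hC2
    by_cases haC : a ∈ C
    · -- `a ∈ C`, so `C = {a}`
      have hapq : a ∉ ({p, q} : Finset V) := Finset.disjoint_left.1 (comps_disjoint_S hC) haC
      have hN := ha _ htight hapq
      have hCa : C ⊆ {a} := by
        rw [← comp_eq_of_mem_comps hC haC]
        intro v hv
        rw [mem_comp] at hv
        refine (reachable_closed (C := {a}) ?_ (mem_singleton_self a) hv).1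
        intro u hu w huw hw
        rw [mem_singleton] at hu
        subst hu
        exact absurd (hN w huw) hw
      have h5 := card_le_card ((inter_subset_right : g ∩ C ⊆ C).trans hCa)
      rw [card_singleton] at h5
      omega
    · have hN : ∀ v, (gr A).Adj a v → v ∈ C := fun v hv =>
        (mem_inter.1 (ha _ hT (fun h6 => haC (mem_inter.1 h6).2) v hv)).2
      by_cases hapq : a ∈ ({p, q} : Finset V)
      · -- `a` has a neighbour in another component
        obtain ⟨E, hE, hEC, v, hv, -⟩ := hother C hC
        obtain ⟨c, hc'⟩ := comps_nonempty hC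
        have key : ∀ x, ({a, x} : Finset V) = {p, q} → False := by
          intro x heq
          have hEx : E ∈ comps (gr A) {a, x} := by rw [heq]; exact hE
          have hCx : C ∈ comps (gr A) {a, x} := by rw [heq]; exact hC
          have hxE : x ∉ E := Finset.disjoint_right.1 (comps_disjoint_S hEx) (by simp)
          have hcE : c ∉ E := fun h6 => hEC (comps_eq_of_mem hE hC h6 hc')
          have hcx : c ≠ x := by
            rintro rfl
            exact Finset.disjoint_left.1 (comps_disjoint_S hCx) hc' (by simp)
          obtain ⟨u, hu, w, hw1, hw2, huw⟩ := exists_adj_out h hv hxE hcE hcx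
          have hwa : w = a := by
            by_contra hwa
            refine hw1 (comps_closed hEx hu huw ?_)
            rw [mem_insert, mem_singleton, not_or]
            exact ⟨hwa, hw2⟩
          subst hwa
          exact hEC (comps_eq_of_mem hE hC hu (hN u huw.symm))
        rw [mem_insert, mem_singleton] at hapq
        rcases hapq with rfl | rfl
        · exact key q rfl
        · exact key p (Finset.pair_comm _ _)
      · -- `a` lies in another component
        obtain ⟨E, hE, haE⟩ := exists_comps (G := gr A) hapq
        have hap : a ≠ p := by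
          rintro rfl
          exact hapq (by simp)
        obtain ⟨v, -, hv⟩ := lemmaR_nbr h h4 hap
        have h5 := hN v hv
        have h6 : v ∉ ({p, q} : Finset V) := Finset.disjoint_left.1 (comps_disjoint_S hC) h5
        have h7 := comps_closed hE haE hv h6
        have h8 := comps_eq_of_mem hE hC h7 h5
        rw [h8] at haE
        exact haC haE

end Pool.Agent.Chrom
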